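import Mathlib

/-!
# MP_b928c0_nt: polynomial phases along an idempotent ultrafilter
-/

set_option autoImplicit false

namespace Pool.Agent.Work.MP_b928c0_nt_aut

open Filter Topology Polynomial

attribute [local instance] Ultrafilter.add Ultrafilter.addSemigroup

/-- an idempotent ultrafilter containing all the sets `S m` -/
theorem exists_idem_ultra (S : ℕ → Set ℕ) (hne : ∀ m, (S m).Nonempty)
    (hanti : ∀ m m', m ≤ m' → S m' ⊆ S m)
    (hadd : ∀ m s s', s ∈ S m → s' ∈ S (m + s) → s + s' ∈ S m) :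
    ∃ p : Ultrafilter ℕ, p + p = p ∧ ∀ m, S m ∈ p := by
  set K : Set (Ultrafilter ℕ) := {q | ∀ m, S m ∈ q} with hK
  have hcl : IsClosed K := by
    have h1 : K = ⋂ m, {q : Ultrafilter ℕ | S m ∈ q} := by
      ext q
      simp [hK]
    rw [h1]
    exact isClosed_iInter fun m => ultrafilter_isClosed_basic _
  have hKne : K.Nonempty := by
    have h2 : (⨅ m, 𝓟 (S m)).NeBot := by
      refine iInf_neBot_of_directed' ?_ fun m => ?_
      · intro m m'
        exact ⟨max m m', principal_mono.mpr (hanti _ _ (le_max_left _ _)),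
          principal_mono.mpr (hanti _ _ (le_max_right _ _))⟩
      · exact principal_neBot_iff.mpr (hne m)
    refine ⟨Ultrafilter.of (⨅ m, 𝓟 (S m)), fun m => ?_⟩
    exact Ultrafilter.of_le (⨅ m, 𝓟 (S m)) (mem_iInf_of_mem m (mem_principal_self _))
  obtain ⟨p, hp, hpp⟩ := exists_idempotent_in_compact_add_subsemigroup
    (M := Ultrafilter ℕ) Ultrafilter.continuous_add_left K hKne hcl.isCompact (by
      intro q hq r hr m
      have h3 : ∀ᶠ s in ((q + r : Ultrafilter ℕ) : Filter ℕ), s ∈ S m := by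
        rw [Ultrafilter.eventually_add]
        filter_upwards [hq m] with s hs
        filter_upwards [hr (m + s)] with s' hs'
        exact hadd m s s' hs hs'
      exact h3)
  exact ⟨p, hpp, hp⟩

/-- monomial phases tend to zero along an idempotent ultrafilter -/
theorem tendsto_monomial (p : Ultrafilter ℕ) (hp : p + p = p) (i : ℕ) :
    1 ≤ i → ∀ a : ℝ, Tendsto (fun s : ℕ => ((a * (s : ℝ) ^ i : ℝ) : UnitAddCircle)) p (𝓝 0) := by
  induction i using Nat.strong_induction_on with
  | _ i ih =>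
    intro hi a
    set f : ℕ → UnitAddCircle := fun s => ((a * (s : ℝ) ^ i : ℝ) : UnitAddCircle) with hf
    obtain ⟨L, -, hL⟩ := isCompact_univ.ultrafilter_le_nhds (Ultrafilter.map f p) (by simp)
    have hL' : Tendsto f p (𝓝 L) := hL
    -- the remainder
    have hrem : ∀ t : ℕ, Tendsto (fun s : ℕ => f (t + s) - (f t + f s)) p (𝓝 0) := by
      intro t
      have h1 : ∀ s : ℕ, f (t + s) - (f t + f s) = ∑ l ∈ Finset.Ico 1 i,
          (((a * (t : ℝ) ^ (i - l) * (i.choose l : ℝ)) * (s : ℝ) ^ l : ℝ) : UnitAddCircle) := by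
        intro s
        have h2 : a * ((t + s : ℕ) : ℝ) ^ i - (a * (t : ℝ) ^ i + a * (s : ℝ) ^ i) =
            ∑ l ∈ Finset.Ico 1 i, (a * (t : ℝ) ^ (i - l) * (i.choose l : ℝ)) * (s : ℝ) ^ l := by
          push_cast
          rw [add_comm (t : ℝ) (s : ℝ), add_pow, Finset.sum_range_succ, Finset.range_eq_Ico,
            Finset.sum_eq_sum_Ico_succ_bot (by omega : 0 < i)]
          simp only [pow_zero, Nat.sub_zero, Nat.choose_zero_right, Nat.cast_one, Nat.sub_self,
            Nat.choose_self, mul_one, one_mul, zero_add]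
          rw [mul_add, mul_add, Finset.mul_sum]
          have h3 : ∀ x y z : ℝ, x + y + z - (x + z) = y := fun x y z => by ring
          rw [h3]
          refine Finset.sum_congr rfl fun l _ => by ring
        rw [hf]
        simp only
        rw [← AddCircle.coe_add, ← AddCircle.coe_sub, h2]
        exact map_sum (QuotientAddGroup.mk' (AddSubgroup.zmultiples (1 : ℝ))) _ _
      simp_rw [h1]
      have h4 : (0 : UnitAddCircle) = ∑ l ∈ Finset.Ico 1 i, (0 : UnitAddCircle) := by simp
      rw [h4]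
      refine tendsto_finsetSum _ fun l hl => ?_
      rw [Finset.mem_Ico] at hl
      exact ih l hl.2 hl.1 _
    have hLL : L = L + L := by
      refine eq_of_forall_dist_le fun ε hε => ?_
      have e0 : 0 < ε / 4 := by positivity
      have h5 : ∀ᶠ s in (p : Filter ℕ), dist (f s) L < ε / 4 := (Metric.tendsto_nhds.mp hL') _ e0
      have h6 : ∀ᶠ t in (p : Filter ℕ), ∀ᶠ s in (p : Filter ℕ), dist (f (t + s)) L < ε / 4 := by
        rw [← Ultrafilter.eventually_add p p (fun s => dist (f s) L < ε / 4), hp]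
        exact h5
      obtain ⟨t, ht1, ht2⟩ := (h5.and h6).exists
      have h7 : ∀ᶠ s in (p : Filter ℕ), dist (f (t + s) - (f t + f s)) 0 < ε / 4 :=
        (Metric.tendsto_nhds.mp (hrem t)) _ e0
      obtain ⟨s, ⟨hs1, hs2⟩, hs3⟩ := ((h5.and ht2).and h7).exists
      rw [dist_zero_right] at hs3
      rw [dist_eq_norm] at ht1 hs1 hs2
      rw [dist_eq_norm]
      have h8 : L - (L + L) = (f t - L) + (f s - L) + (f (t + s) - (f t + f s)) - (f (t + s) - L) := by
        abel
      rw [h8]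
      calc ‖(f t - L) + (f s - L) + (f (t + s) - (f t + f s)) - (f (t + s) - L)‖
          ≤ ‖(f t - L) + (f s - L) + (f (t + s) - (f t + f s))‖ + ‖f (t + s) - L‖ := norm_sub_le _ _
        _ ≤ ‖(f t - L) + (f s - L)‖ + ‖f (t + s) - (f t + f s)‖ + ‖f (t + s) - L‖ := by
            gcongr; exact norm_add_le _ _
        _ ≤ ‖f t - L‖ + ‖f s - L‖ + ‖f (t + s) - (f t + f s)‖ + ‖f (t + s) - L‖ := by
            gcongr; exact norm_add_le _ _
        _ ≤ ε := by linarith
    have hL0 : L = 0 := by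
      have := hLL
      rwa [left_eq_add] at this
    rw [hL0] at hL'
    exact hL'

/-- polynomial phases -/
theorem tendsto_poly (p : Ultrafilter ℕ) (hp : p + p = p) (P : ℝ[X]) :
    Tendsto (fun s : ℕ => ((P.eval (s : ℝ) - P.eval 0 : ℝ) : UnitAddCircle)) p (𝓝 0) := by
  have h1 : ∀ s : ℕ, ((P.eval (s : ℝ) - P.eval 0 : ℝ) : UnitAddCircle) =
      ∑ i ∈ Finset.Ico 1 (P.natDegree + 1), ((P.coeff i * (s : ℝ) ^ i : ℝ) : UnitAddCircle) := by
    intro s
    have h2 : P.eval (s : ℝ) - P.eval 0 =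
        ∑ i ∈ Finset.Ico 1 (P.natDegree + 1), P.coeff i * (s : ℝ) ^ i := by
      rw [Polynomial.eval_eq_sum_range, Finset.range_eq_Ico,
        Finset.sum_eq_sum_Ico_succ_bot (by omega : 0 < P.natDegree + 1), ← Polynomial.coeff_zero_eq_eval_zero]
      simp
    rw [h2]
    exact map_sum (QuotientAddGroup.mk' (AddSubgroup.zmultiples (1 : ℝ))) _ _
  simp_rw [h1]
  have h4 : (0 : UnitAddCircle) = ∑ l ∈ Finset.Ico 1 (P.natDegree + 1), (0 : UnitAddCircle) := by simp
  rw [h4]
  refine tendsto_finsetSum _ fun l hl => ?_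
  rw [Finset.mem_Ico] at hl
  exact tendsto_monomial p hp l hl.1 _

theorem eventually_phase (p : Ultrafilter ℕ) (hp : p + p = p) (P : ℝ[X]) (ε : ℝ) (hε : 0 < ε) :
    ∀ᶠ s : ℕ in (p : Filter ℕ), ∃ z : ℤ, |P.eval (s : ℝ) - P.eval 0 - z| < ε := by
  have h1 := (Metric.tendsto_nhds.mp (tendsto_poly p hp P)) ε hε
  filter_upwards [h1] with s hs
  rw [dist_zero_right, UnitAddCircle.norm_eq] at hs
  exact ⟨_, hs⟩

/-- the phase of a polynomial along `c n (1 + s) ^ j` -/
theorem eventually_phase_geo (p : Ultrafilter ℕ) (hp : p + p = p) (P : ℝ[X]) (ε : ℝ) (hε : 0 < ε)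
    (m j : ℕ) : ∀ᶠ s : ℕ in (p : Filter ℕ), ∃ z : ℤ,
      |P.eval ((m * (1 + s) ^ j : ℕ) : ℝ) - P.eval (m : ℝ) - z| < ε := by
  have h1 := eventually_phase p hp (P.comp (Polynomial.C (m : ℝ) * (1 + Polynomial.X) ^ j)) ε hε
  filter_upwards [h1] with s hs
  simpa using hs

end Pool.Agent.Work.MP_b928c0_nt_aut
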