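import Pool.Agent.Work.MP_b928c0_nt_aut.Deep
import Pool.Agent.Work.MP_b928c0_nt_aut.Phase

/-!
# MP_b928c0_nt: automatic sets contain long geometric progressions. Density and automatic sets
-/

set_option autoImplicit false

namespace Pool.Agent.Work.MP_b928c0_nt_aut

open Finset Classical

/-! ### digits -/

theorem count_digits (B D t : ℕ) (hD : D < B) :
    ((range (B ^ t)).filter (fun v => ∀ m < t, v / B ^ m % B ≠ D)).card ≤ (B - 1) ^ t := by
  induction t with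
  | zero => simp
  | succ t ih =>
    have hB : 0 < B := by omega
    have h1 : ((range (B ^ (t + 1))).filter (fun v => ∀ m < t + 1, v / B ^ m % B ≠ D)).card ≤
        (((range (B ^ t)).filter (fun v => ∀ m < t, v / B ^ m % B ≠ D)) ×ˢ
          ((range B).erase D)).card := by
      refine Finset.card_le_card_of_injOn (fun v => (v / B, v % B)) ?_ ?_
      · intro v hv
        simp only [Finset.coe_filter, Finset.mem_range, Set.mem_ofPred_eq] at hv
        simp only [Finset.coe_product, Set.mem_prod, Finset.coe_filter, Finset.mem_range,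
          Set.mem_ofPred_eq, Finset.coe_erase, Set.mem_sdiff, Finset.coe_range, Set.mem_Iio,
          Set.mem_singleton_iff]
        refine ⟨⟨?_, fun m hm => ?_⟩, Nat.mod_lt _ hB, ?_⟩
        · rw [pow_succ, mul_comm] at hv
          exact Nat.div_lt_of_lt_mul hv.1
        · rw [Nat.div_div_eq_div_mul, ← pow_succ']
          exact hv.2 (m + 1) (by omega)
        · have := hv.2 0 (by omega)
          simpa using this
      · intro v _ w _ h
        simp only [Prod.mk.injEq] at h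
        rw [← Nat.div_add_mod v B, ← Nat.div_add_mod w B, h.1, h.2]
    refine h1.trans ?_
    rw [Finset.card_product, Finset.card_erase_of_mem (Finset.mem_range.mpr hD), Finset.card_range,
      pow_succ]
    exact Nat.mul_le_mul_right _ ih

theorem count_interval (B D t x H : ℕ) (hD : D < B) :
    ((Ico x (x + H)).filter (fun n => ∀ m, n / B ^ m % B ≠ D)).card ≤
      (H / B ^ t + 2) * (B - 1) ^ t := by
  have hB : 0 < B := by omega
  have hP : 0 < B ^ t := by positivity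
  have h1 : ((Ico x (x + H)).filter (fun n => ∀ m, n / B ^ m % B ≠ D)).card ≤
      ((Icc (x / B ^ t) ((x + H) / B ^ t)) ×ˢ
        ((range (B ^ t)).filter (fun v => ∀ m < t, v / B ^ m % B ≠ D))).card := by
    refine Finset.card_le_card_of_injOn (fun n => (n / B ^ t, n % B ^ t)) ?_ ?_
    · intro n hn
      simp only [Finset.coe_filter, Finset.mem_Ico, Set.mem_ofPred_eq] at hn
      simp only [Finset.coe_product, Set.mem_prod, Finset.coe_filter, Finset.mem_range,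
        Set.mem_ofPred_eq, Finset.coe_Icc, Set.mem_Icc]
      refine ⟨⟨Nat.div_le_div_right hn.1.1, Nat.div_le_div_right hn.1.2.le⟩, Nat.mod_lt _ hP,
        fun m hm => ?_⟩
      have e1 : B ^ t = B ^ m * B ^ (t - m) := by rw [← pow_add]; congr 1; omega
      rw [e1, Nat.mod_mul_right_div_self, Nat.mod_mod_of_dvd _ (dvd_pow_self B (by omega))]
      exact hn.2 m
    · intro v _ w _ h
      simp only [Prod.mk.injEq] at h
      rw [← Nat.div_add_mod v (B ^ t), ← Nat.div_add_mod w (B ^ t), h.1, h.2]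
  refine h1.trans ?_
  rw [Finset.card_product, Nat.card_Icc]
  refine Nat.mul_le_mul ?_ (count_digits B D t hD)
  rw [Nat.add_div hP]
  generalize x / B ^ t = a1
  generalize H / B ^ t = a2
  split_ifs <;> omega

theorem density_digits (B D : ℕ) (hD : D < B) (ε : ℝ) (hε : 0 < ε) :
    ∃ H0 : ℕ, ∀ x H : ℕ, H0 ≤ H →
      (((Ico x (x + H)).filter (fun n => ∀ m, n / B ^ m % B ≠ D)).card : ℝ) ≤ ε * H := by
  have hB : (0 : ℝ) < B := by exact_mod_cast (by omega : 0 < B)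
  obtain ⟨t, ht⟩ := exists_pow_lt_of_lt_one (half_pos hε)
    (show ((B : ℝ) - 1) / B < 1 by rw [div_lt_one hB]; linarith)
  have hB1 : (0 : ℝ) ≤ (B : ℝ) - 1 := by
    have : (1 : ℝ) ≤ B := by exact_mod_cast (by omega : 1 ≤ B)
    linarith
  obtain ⟨H0, hH0⟩ := exists_nat_ge (4 * ((B : ℝ) - 1) ^ t / ε)
  refine ⟨H0, fun x H hH => ?_⟩
  have h1 : (((Ico x (x + H)).filter (fun n => ∀ m, n / B ^ m % B ≠ D)).card : ℝ) ≤
      (((H / B ^ t + 2) * (B - 1) ^ t : ℕ) : ℝ) := by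
    exact_mod_cast count_interval B D t x H hD
  refine h1.trans ?_
  have h2 : ((B - 1 : ℕ) : ℝ) = (B : ℝ) - 1 := by
    rw [Nat.cast_sub (by omega)]
    simp
  have h3 : (((H / B ^ t : ℕ)) : ℝ) ≤ (H : ℝ) / (B : ℝ) ^ t := by
    have := @Nat.cast_div_le ℝ _ _ _ H (B ^ t)
    simpa using this
  have h4 : 4 * ((B : ℝ) - 1) ^ t / ε ≤ H := hH0.trans (by exact_mod_cast hH)
  rw [div_le_iff₀ hε] at h4
  have h5 : (0 : ℝ) ≤ ((B : ℝ) - 1) ^ t := by positivity
  have hH' : (0 : ℝ) ≤ H := Nat.cast_nonneg H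
  push_cast
  rw [h2]
  calc ((H / B ^ t : ℕ) + 2 : ℝ) * ((B : ℝ) - 1) ^ t
      ≤ ((H : ℝ) / (B : ℝ) ^ t + 2) * ((B : ℝ) - 1) ^ t :=
        mul_le_mul_of_nonneg_right (by linarith) h5
    _ = H * (((B : ℝ) - 1) / B) ^ t + 2 * ((B : ℝ) - 1) ^ t := by
        rw [div_pow]; ring
    _ ≤ H * (ε / 2) + 2 * ((B : ℝ) - 1) ^ t := by
        have := mul_le_mul_of_nonneg_left ht.le hH'
        linarith
    _ ≤ ε * H := by linarith

/-! ### deep numbers are almost all -/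

theorem Base.exists_digit {b : ℕ} {Q : Type} [Fintype Q] (X : Base b Q) (C0 : ℕ) :
    ∃ B D : ℕ, D < B ∧ ∀ n : ℕ, (∃ m, n / B ^ m % B = D) → ∀ c, 1 ≤ c → c ≤ C0 →
      X.Deep (c * n) := by
  obtain ⟨v, hv⟩ := X.exists_deep C0
  have hb := X.hb
  have hW1 := X.hW1
  have hbp : 0 < b := by omega
  set E := (C0 + 1) * v + 1 with hE
  set s := X.W * (C0 + 1) with hs
  set W' := X.W * ((C0 + 1) + E + 1) with hW'
  have hW's : W' = s + X.W * E + X.W := by rw [hW', hs]; ring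
  have hEW : E ≤ X.W * E := Nat.le_mul_of_pos_left _ hW1
  refine ⟨b ^ W', b ^ s * v, ?_, ?_⟩
  · calc b ^ s * v < b ^ s * b ^ E := by
          refine Nat.mul_lt_mul_of_pos_left (X.lt_pow _ _ ?_) (by positivity)
          rw [hE]
          have := Nat.le_mul_of_pos_left v (show 0 < C0 + 1 by omega)
          omega
      _ = b ^ (s + E) := (pow_add _ _ _).symm
      _ ≤ b ^ W' := Nat.pow_le_pow_right hbp (by omega)
  · rintro n ⟨m, hm⟩ c hc1 hc2
    set V0 := n % (b ^ W') ^ m with hV0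
    set V1 := n / (b ^ W') ^ m / b ^ W' with hV1
    have hP : (b ^ W') ^ m = b ^ (W' * m) := by rw [← pow_mul]
    have hn : n = b ^ (W' * m) * (b ^ W' * V1 + b ^ s * v) + V0 := by
      have h1 := Nat.div_add_mod n ((b ^ W') ^ m)
      have h2 := Nat.div_add_mod (n / (b ^ W') ^ m) (b ^ W')
      rw [hm] at h2
      rw [hV1, h2, ← hP, hV0, h1]
    have hV0' : V0 < b ^ (W' * m) := by
      rw [← hP]
      exact Nat.mod_lt _ (by positivity)
    have hcn : c * n = b ^ (W' * m + W') * (c * V1) + (b ^ (W' * m + s) * (c * v) + c * V0) := by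
      conv_lhs => rw [hn]
      rw [pow_add, pow_add]
      ring
    have hdW' : X.W ∣ W' := Dvd.intro _ rfl
    have hds : X.W ∣ s := Dvd.intro _ rfl
    have hsW : X.W * C0 + X.W = s := by rw [hs]; ring
    have hcV0 : c * V0 < b ^ (W' * m + s - X.W) := by
      have e1 : W' * m + s - X.W = W' * m + X.W * C0 := by omega
      rw [e1, pow_add, mul_comm c V0]
      calc V0 * c ≤ V0 * b ^ (X.W * C0) := Nat.mul_le_mul_left _
            (X.lt_pow _ _ (hc2.trans (Nat.le_mul_of_pos_left _ hW1))).le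
        _ < b ^ (W' * m) * b ^ (X.W * C0) := Nat.mul_lt_mul_of_pos_right hV0' (by positivity)
    rw [hcn]
    refine X.deep_right _ _ _ (Dvd.dvd.add (Dvd.dvd.mul_right hdW' m) hdW') (by omega) ?_ ?_
    · have e2 : c * V0 < b ^ (W' * m + s) :=
        hcV0.trans_le (Nat.pow_le_pow_right hbp (Nat.sub_le _ _))
      have e3 : c * v + 1 ≤ b ^ E := by
        refine (X.lt_pow _ _ ?_)
        rw [hE]
        have : c * v ≤ (C0 + 1) * v := Nat.mul_le_mul_right v (by omega)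
        omega
      calc b ^ (W' * m + s) * (c * v) + c * V0 < b ^ (W' * m + s) * (c * v) + b ^ (W' * m + s) := by
            omega
        _ = b ^ (W' * m + s) * (c * v + 1) := by ring
        _ ≤ b ^ (W' * m + s) * b ^ E := Nat.mul_le_mul_left _ e3
        _ = b ^ (W' * m + s + E) := by rw [← pow_add]
        _ ≤ b ^ (W' * m + W' - X.W) := Nat.pow_le_pow_right hbp (by omega)
    · exact X.deep_left _ _ _ (Dvd.dvd.add (Dvd.dvd.mul_right hdW' m) hds) (by omega) hcV0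
        (hv c hc1 hc2)

/-! ### automatic sets -/

/-- the `b`-kernel -/
def kr (b : ℕ) (A : Set ℕ) : Set (Set ℕ) :=
  {B | ∃ e r : ℕ, r < b ^ e ∧ B = {n | b ^ e * n + r ∈ A}}

theorem kr_shift (b : ℕ) (A : Set ℕ) (ℓ v : ℕ) (hv : v < b ^ ℓ) (B : Set ℕ) (hB : B ∈ kr b A) :
    {n | b ^ ℓ * n + v ∈ B} ∈ kr b A := by
  obtain ⟨e, r, hr, rfl⟩ := hB
  refine ⟨e + ℓ, b ^ e * v + r, ?_, ?_⟩
  · rw [pow_add]
    calc b ^ e * v + r < b ^ e * v + b ^ e := by omega
      _ = b ^ e * (v + 1) := by ring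
      _ ≤ b ^ e * b ^ ℓ := Nat.mul_le_mul_left _ hv
  · ext n
    show b ^ e * (b ^ ℓ * n + v) + r ∈ A ↔ b ^ (e + ℓ) * n + (b ^ e * v + r) ∈ A
    rw [show b ^ e * (b ^ ℓ * n + v) + r = b ^ (e + ℓ) * n + (b ^ e * v + r) by
      rw [pow_add]; ring]

/-- the system of a set -/
noncomputable def sys (b : ℕ) (A : Set ℕ) : Sys b (kr b A) where
  σ ℓ v B := if h : v < b ^ ℓ then ⟨{n | b ^ ℓ * n + v ∈ B.1}, kr_shift b A ℓ v h B.1 B.2⟩ else B
  comp ℓ1 v1 ℓ2 v2 h1 h2 := by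
    have h3 : b ^ ℓ1 * v2 + v1 < b ^ (ℓ1 + ℓ2) := by
      rw [pow_add]
      calc b ^ ℓ1 * v2 + v1 < b ^ ℓ1 * v2 + b ^ ℓ1 := by omega
        _ = b ^ ℓ1 * (v2 + 1) := by ring
        _ ≤ b ^ ℓ1 * b ^ ℓ2 := Nat.mul_le_mul_left _ h2
    funext B
    simp only [Function.comp, dif_pos h1, dif_pos h2, dif_pos h3]
    refine Subtype.ext ?_
    ext n
    show b ^ (ℓ1 + ℓ2) * n + (b ^ ℓ1 * v2 + v1) ∈ B.1 ↔ b ^ ℓ1 * (b ^ ℓ2 * n + v2) + v1 ∈ B.1
    rw [show b ^ ℓ1 * (b ^ ℓ2 * n + v2) + v1 = b ^ (ℓ1 + ℓ2) * n + (b ^ ℓ1 * v2 + v1) by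
      rw [pow_add]; ring]

theorem exists_base (b : ℕ) (hb : 2 ≤ b) (A : Set ℕ) [Fintype (kr b A)] :
    ∃ X : Base b (kr b A), ∀ u v : ℕ, X.θ u = X.θ v → (u ∈ A ↔ v ∈ A) := by
  obtain ⟨W, hW1, hW⟩ := exists_idem hb (sys b A)
  obtain ⟨ℓz, z, hz, hmin⟩ := exists_min hb (sys b A)
  refine ⟨⟨sys b A, hb, W, hW1, hW, _, ℓz, z, hz, rfl, hmin⟩, fun u v huv => ?_⟩
  have key : ∀ u : ℕ, u ∈ A ↔ (0 : ℕ) ∈ (th (sys b A) W u ⟨A, 0, 0, by simp, by simp⟩ : kr b A).1 := by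
    intro u
    have h1 : u < b ^ (W * u + W) := (Nat.lt_pow_self (by omega)).trans_le
      (Nat.pow_le_pow_right (by omega) (by
        have := Nat.le_mul_of_pos_left u hW1
        omega))
    unfold th sys
    simp only [dif_pos h1]
    show u ∈ A ↔ b ^ (W * u + W) * 0 + u ∈ A
    rw [mul_zero, zero_add]
  have h2 : th (sys b A) W u = th (sys b A) W v := huv
  rw [key u, key v, h2]

/-- for deep `n` there is a ratio, good for the automaton and for finitely many polynomial phases -/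
theorem Base.exists_ratio {b : ℕ} {Q : Type} [Fintype Q] (X : Base b Q) (n k C : ℕ)
    (hd : ∀ c, 1 ≤ c → c ≤ C * k.factorial → X.Deep (c * n)) (Ps : Finset (Polynomial ℝ)) (ε : ℝ)
    (hε : 0 < ε) : ∃ r, 2 ≤ r ∧ ∀ c j, c ≤ C → j ≤ k → X.θ (c * n * r ^ j) = X.θ (c * n) ∧
      ∀ P ∈ Ps, ∃ z : ℤ, |P.eval ((c * n * r ^ j : ℕ) : ℝ) - P.eval ((c * n : ℕ) : ℝ) - z| < ε := by
  obtain ⟨D, hD, hV⟩ := X.exists_period n k (C * k.factorial) hd
  obtain ⟨p, hp, hS⟩ := exists_idem_ultra (X.SS n k (C * k.factorial) D)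
    (X.SS_nonempty n k _ D) (fun m m' h => X.SS_anti n k _ D m m' h)
    (fun m s s' h h' => X.SS_add n k _ D m s s' h h')
  have h1 : ∀ᶠ s : ℕ in (p : Filter ℕ), ∀ q ∈ Ps ×ˢ (Finset.range (C + 1) ×ˢ Finset.range (k + 1)),
      ∃ z : ℤ, |q.1.eval (((q.2.1 * n) * (1 + s) ^ q.2.2 : ℕ) : ℝ) -
        q.1.eval ((q.2.1 * n : ℕ) : ℝ) - z| < ε := by
    rw [Filter.eventually_all_finset]
    exact fun q _ => eventually_phase_geo p hp q.1 ε hε (q.2.1 * n) q.2.2
  obtain ⟨s, hs1, hs2⟩ := (h1.and (hS 1)).exists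
  refine ⟨1 + s, ?_, fun c j hc hj => ⟨?_, fun P hP => ?_⟩⟩
  · have := X.SS_pos n k _ D 1 s hD hs2
    omega
  · rcases Nat.eq_zero_or_pos c with h0 | h0
    · subst h0
      simp
    · have := hV s hs2 j c hj h0 (Nat.mul_le_mul hc (Nat.factorial_le hj))
      rw [X.F_one] at this
      exact this
  · exact hs1 (P, c, j) (by
      rw [Finset.mem_product, Finset.mem_product, Finset.mem_range, Finset.mem_range]
      exact ⟨hP, Nat.lt_succ_of_le hc, Nat.lt_succ_of_le hj⟩)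

/-- `r` is a good ratio for `n` -/
def Ratio (A : Set ℕ) (k C : ℕ) (Ps : Finset (Polynomial ℝ)) (ε : ℝ) (n r : ℕ) : Prop :=
  2 ≤ r ∧ ∀ c ≤ C, ∀ j ≤ k, (c * n * r ^ j ∈ A ↔ c * n ∈ A) ∧
    ∀ P ∈ Ps, ∃ z : ℤ, |P.eval ((c * n * r ^ j : ℕ) : ℝ) - P.eval ((c * n : ℕ) : ℝ) - z| < ε

/-- almost all `n` have good ratios -/
theorem almost_all (b : ℕ) (hb : 2 ≤ b) (A : Set ℕ) (hA : (kr b A).Finite) (k C : ℕ) (δ : ℝ)
    (hδ : 0 < δ) : ∃ H0 : ℕ, ∀ x H : ℕ, H0 ≤ H →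
      (((Ico x (x + H)).filter (fun n => ¬ ∀ (Ps : Finset (Polynomial ℝ)) (ε : ℝ), 0 < ε →
        ∃ r : ℕ, Ratio A k C Ps ε n r)).card : ℝ) ≤ δ * H := by
  have : Fintype (kr b A) := hA.fintype
  obtain ⟨X, hX⟩ := exists_base b hb A
  obtain ⟨B, D, hD, hdeep⟩ := X.exists_digit (C * k.factorial)
  obtain ⟨H0, hH0⟩ := density_digits B D hD δ hδ
  refine ⟨H0, fun x H hH => le_trans ?_ (hH0 x H hH)⟩
  exact_mod_cast Finset.card_le_card fun n hn => by
    rw [Finset.mem_filter] at hn ⊢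
    refine ⟨hn.1, fun m hm => hn.2 fun Ps ε hε => ?_⟩
    obtain ⟨r, hr, h⟩ := X.exists_ratio n k C (hdeep n ⟨m, hm⟩) Ps ε hε
    exact ⟨r, hr, fun c hc j hj => ⟨hX _ _ (h c j hc hj).1, (h c j hc hj).2⟩⟩

/-- open in the topology generated by the real polynomials modulo one -/
def PolyOpen (V : Set ℕ) : Prop :=
  ∀ n ∈ V, ∃ (Ps : Finset (Polynomial ℝ)) (ε : ℝ), 0 < ε ∧ ∀ n' : ℕ,
    (∀ P ∈ Ps, ∃ z : ℤ, |P.eval (n' : ℝ) - P.eval (n : ℝ) - z| < ε) → n' ∈ V

/-- positive upper Banach density, finite unions of sets `A ∩ V ∩ W` -/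
theorem banach {m : ℕ} (b : Fin m → ℕ) (hb : ∀ i, 2 ≤ b i) (A V W : Fin m → Set ℕ)
    (hA : ∀ i, (kr (b i) (A i)).Finite) (hV : ∀ i, PolyOpen (V i))
    (hW : ∀ i, ∃ q, 1 ≤ q ∧ ∀ n ∈ W i, ∀ R, 1 ≤ R → n * R ^ q ∈ W i)
    (δ : ℝ) (hδ : 0 < δ)
    (hd : ∀ H0 : ℕ, ∃ x H : ℕ, H0 ≤ H ∧
      δ * H ≤ (((Ico x (x + H)).filter (fun n => ∃ i, n ∈ A i ∧ n ∈ V i ∧ n ∈ W i)).card : ℝ))
    (k : ℕ) :
    ∃ n r : ℕ, 0 < n ∧ 2 ≤ r ∧ ∃ i, ∀ j < k, n * r ^ j ∈ A i ∧ n * r ^ j ∈ V i ∧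
      n * r ^ j ∈ W i := by
  choose q hq1 hq using hW
  choose H0 h0 using fun i => almost_all (b i) (hb i) (A i) (hA i) (q i * k) 1
    (δ / (2 * (m + 1))) (by positivity)
  obtain ⟨H1, h1⟩ := exists_nat_gt (4 / δ)
  obtain ⟨x, H, hH, hc⟩ := hd (max (∑ i, H0 i) H1)
  have hHi : ∀ i, H0 i ≤ H := fun i =>
    (Finset.single_le_sum (f := H0) (fun _ _ => Nat.zero_le _) (Finset.mem_univ i)).trans
      ((le_max_left _ _).trans hH)
  have hH1 : (4 / δ : ℝ) < H := h1.trans_le (by exact_mod_cast (le_max_right _ _).trans hH)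
  rw [div_lt_iff₀ hδ] at hH1
  by_contra hcon
  set Z : Fin m → Finset ℕ := fun i => (Ico x (x + H)).filter (fun n =>
    ¬ ∀ (Ps : Finset (Polynomial ℝ)) (ε : ℝ), 0 < ε → ∃ r : ℕ, Ratio (A i) (q i * k) 1 Ps ε n r)
    with hZ
  have h3 : ((Ico x (x + H)).filter (fun n => ∃ i, n ∈ A i ∧ n ∈ V i ∧ n ∈ W i)) ⊆
      insert 0 (Finset.univ.biUnion Z) := by
    intro n hn
    rw [Finset.mem_filter] at hn
    rw [Finset.mem_insert, Finset.mem_biUnion]
    by_cases hn0 : n = 0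
    · exact Or.inl hn0
    obtain ⟨i, hA', hV', hW'⟩ := hn.2
    refine Or.inr ⟨i, Finset.mem_univ i, ?_⟩
    rw [hZ, Finset.mem_filter]
    refine ⟨hn.1, fun hall => ?_⟩
    obtain ⟨Ps, ε, hε, hPs⟩ := hV i n hV'
    obtain ⟨r, hr, h⟩ := hall Ps ε hε
    refine hcon ⟨n, r ^ q i, Nat.pos_of_ne_zero hn0, ?_, i, fun j hj => ?_⟩
    · calc 2 ≤ r := hr
        _ = r ^ 1 := (pow_one r).symm
        _ ≤ r ^ q i := Nat.pow_le_pow_right (by omega) (hq1 i)
    · have hj' : q i * j ≤ q i * k := Nat.mul_le_mul_left _ hj.le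
      obtain ⟨h4, h5⟩ := h 1 le_rfl (q i * j) hj'
      rw [← pow_mul]
      refine ⟨?_, hPs _ fun P hP => ?_, ?_⟩
      · have := h4.mpr (by simpa using hA')
        simpa using this
      · have := h5 P hP
        simpa using this
      · rw [mul_comm (q i) j, pow_mul]
        exact hq i n hW' _ (Nat.one_le_pow _ _ (by omega))
  have h4 := Finset.card_le_card h3
  have h5 : (((Ico x (x + H)).filter (fun n => ∃ i, n ∈ A i ∧ n ∈ V i ∧ n ∈ W i)).card : ℝ) ≤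
      1 + ∑ i, ((Z i).card : ℝ) := by
    have h6 := h4.trans ((Finset.card_insert_le _ _).trans
      (Nat.add_le_add_right Finset.card_biUnion_le 1))
    have h7 : (((Ico x (x + H)).filter (fun n => ∃ i, n ∈ A i ∧ n ∈ V i ∧ n ∈ W i)).card : ℝ) ≤
        ((∑ i, (Z i).card + 1 : ℕ) : ℝ) := by exact_mod_cast h6
    push_cast at h7
    linarith
  have h8 : ∑ i, ((Z i).card : ℝ) ≤ ∑ i : Fin m, δ / (2 * (m + 1)) * H :=
    Finset.sum_le_sum fun i _ => h0 i x H (hHi i)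
  rw [Finset.sum_const, Finset.card_univ, Fintype.card_fin, nsmul_eq_mul] at h8
  have h9 : (m : ℝ) * (δ / (2 * (m + 1)) * H) ≤ δ / 2 * H := by
    have e1 : (0 : ℝ) ≤ H := Nat.cast_nonneg H
    have e2 : (0 : ℝ) < (m : ℝ) + 1 := by positivity
    have e3 : (m : ℝ) * (δ / (2 * (m + 1)) * H) = (m / (m + 1)) * (δ / 2 * H) := by
      field_simp
    rw [e3]
    have e4 : (m : ℝ) / (m + 1) ≤ 1 := by
      rw [div_le_one e2]; linarith
    have e5 : 0 ≤ δ / 2 * (H : ℝ) := by positivity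
    calc (m : ℝ) / (m + 1) * (δ / 2 * H) ≤ 1 * (δ / 2 * H) := mul_le_mul_of_nonneg_right e4 e5
      _ = _ := one_mul _
  nlinarith

/-- a sequence with bounded gaps has positive upper Banach density -/
theorem syndetic_density (a : ℕ → ℕ) (c : ℕ) (ha : StrictMono a)
    (hc : ∀ i, a (i + 1) - a i ≤ c) (B : Set ℕ) (hB : ∀ i, a i ∈ B) : ∃ δ : ℝ, 0 < δ ∧
    ∀ H0 : ℕ, ∃ x H : ℕ, H0 ≤ H ∧ δ * H ≤ (((Ico x (x + H)).filter (fun n => n ∈ B)).card : ℝ) := by
  have hle : ∀ t, a t ≤ a 0 + c * t := by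
    intro t
    induction t with
    | zero => simp
    | succ t ih =>
      have h1 := hc t
      have h2 : c * (t + 1) = c * t + c := by ring
      omega
  refine ⟨1 / (c + 1), by positivity, fun H0 => ⟨a 0, (c + 1) * (H0 + 1), ?_, ?_⟩⟩
  · have := Nat.le_mul_of_pos_left (H0 + 1) (show 0 < c + 1 by omega)
    omega
  · have h1 : (Finset.range (H0 + 1)).card ≤
        ((Ico (a 0) (a 0 + (c + 1) * (H0 + 1))).filter (fun n => n ∈ B)).card := by
      refine Finset.card_le_card_of_injOn a ?_ ha.injective.injOn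
      intro t ht
      rw [Finset.mem_coe, Finset.mem_range] at ht
      rw [Finset.mem_coe, Finset.mem_filter, Finset.mem_Ico]
      refine ⟨⟨ha.monotone (Nat.zero_le t), ?_⟩, hB t⟩
      have h2 := hle t
      have h3 : c * t ≤ c * (H0 + 1) := Nat.mul_le_mul_left c ht.le
      have h4 : (c + 1) * (H0 + 1) = c * (H0 + 1) + (H0 + 1) := by ring
      omega
    rw [Finset.card_range] at h1
    have h5 : (1 / ((c : ℝ) + 1)) * (((c + 1) * (H0 + 1) : ℕ) : ℝ) = ((H0 + 1 : ℕ) : ℝ) := by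
      push_cast
      have : (c : ℝ) + 1 ≠ 0 := by positivity
      field_simp
    rw [h5]
    exact_mod_cast h1

end Pool.Agent.Work.MP_b928c0_nt_aut
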