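import Mathlib

/-!
# MP_b928c0_nt: automatic sets contain long geometric progressions. Core

`σ ℓ v` (`v < b ^ ℓ`) are self-maps of a finite type with
`σ (ℓ1 + ℓ2) (b ^ ℓ1 * v2 + v1) = σ ℓ2 v2 ∘ σ ℓ1 v1` (reading digits from the lowest).
-/

set_option autoImplicit false

namespace Pool.Agent.Work.MP_b928c0_nt_aut

open Finset Classical

/-- a system of maps indexed by words -/
structure Sys (b : ℕ) (Q : Type) where
  σ : ℕ → ℕ → Q → Q
  comp : ∀ ℓ1 v1 ℓ2 v2 : ℕ, v1 < b ^ ℓ1 → v2 < b ^ ℓ2 →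
    σ (ℓ1 + ℓ2) (b ^ ℓ1 * v2 + v1) = σ ℓ2 v2 ∘ σ ℓ1 v1

variable {b : ℕ} {Q : Type}

/-- an idempotent length of zeros -/
theorem exists_idem [Finite Q] (hb : 2 ≤ b) (S : Sys b Q) :
    ∃ W, 1 ≤ W ∧ S.σ W 0 ∘ S.σ W 0 = S.σ W 0 := by
  have hadd : ∀ m n : ℕ, S.σ (m + n) 0 = S.σ n 0 ∘ S.σ m 0 := fun m n => by
    have := S.comp m 0 n 0 (by positivity) (by positivity)
    simpa using this
  obtain ⟨m', n', hne, heq⟩ := Finite.exists_ne_map_eq_of_infinite (fun a : ℕ => S.σ a 0)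
  obtain ⟨m, d, hd, h1⟩ : ∃ m d : ℕ, 1 ≤ d ∧ S.σ (m + d) 0 = S.σ m 0 := by
    rcases lt_or_gt_of_ne hne with h | h
    · exact ⟨m', n' - m', by omega, by rw [Nat.add_sub_cancel' h.le]; exact heq.symm⟩
    · exact ⟨n', m' - n', by omega, by rw [Nat.add_sub_cancel' (le_of_lt h)]; exact heq⟩
  have h2 : ∀ a, m ≤ a → S.σ (a + d) 0 = S.σ a 0 := by
    intro a ha
    obtain ⟨c, rfl⟩ := Nat.exists_eq_add_of_le ha
    rw [show m + c + d = (m + d) + c by ring, hadd (m + d) c, h1, ← hadd m c]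
  have h3 : ∀ t a, m ≤ a → S.σ (a + t * d) 0 = S.σ a 0 := by
    intro t
    induction t with
    | zero => intro a _; simp
    | succ t ih =>
      intro a ha
      rw [show a + (t + 1) * d = (a + t * d) + d by ring, h2 _ (by omega), ih a ha]
  refine ⟨(m + 1) * d, Nat.one_le_iff_ne_zero.mpr (Nat.mul_ne_zero (by omega) (by omega)), ?_⟩
  rw [← hadd, h3 (m + 1) ((m + 1) * d)]
  calc m ≤ (m + 1) * 1 := by omega
    _ ≤ (m + 1) * d := Nat.mul_le_mul_left _ hd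

/-- the stable action of a number -/
def th (S : Sys b Q) (W v : ℕ) : Q → Q := S.σ (W * v + W) v

theorem sig_zero (hb : 2 ≤ b) (S : Sys b Q) (W : ℕ) (hW : S.σ W 0 ∘ S.σ W 0 = S.σ W 0) (t : ℕ) :
    S.σ (W * t + W) 0 = S.σ W 0 := by
  have hadd : ∀ m n : ℕ, S.σ (m + n) 0 = S.σ n 0 ∘ S.σ m 0 := fun m n => by
    have := S.comp m 0 n 0 (by positivity) (by positivity)
    simpa using this
  induction t with
  | zero => simp
  | succ t ih =>
    rw [show W * (t + 1) + W = (W * t + W) + W by ring, hadd, ih, hW]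

theorem th_eq (hb : 2 ≤ b) (S : Sys b Q) (W : ℕ) (hW1 : 1 ≤ W)
    (hW : S.σ W 0 ∘ S.σ W 0 = S.σ W 0) (ℓ v : ℕ) (hℓ : W ∣ ℓ) (hv : v < b ^ ℓ) :
    S.σ (ℓ + W) v = th S W v := by
  have key : ∀ ℓ t v : ℕ, v < b ^ ℓ → S.σ (ℓ + W * t + W) v = S.σ (ℓ + W) v := by
    intro ℓ t v hv
    have h1 := S.comp ℓ v (W * t + W) 0 hv (by positivity)
    have h2 := S.comp ℓ v W 0 hv (by positivity)
    rw [mul_zero, zero_add] at h1 h2
    rw [add_assoc, h1, h2, sig_zero hb S W hW t]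
  have hv' : v < b ^ (W * v) := by
    calc v < b ^ v := Nat.lt_pow_self (by omega)
      _ ≤ b ^ (W * v) := Nat.pow_le_pow_right (by omega) (Nat.le_mul_of_pos_left _ hW1)
  obtain ⟨c, rfl⟩ := hℓ
  unfold th
  rcases le_total c v with h | h
  · obtain ⟨t, rfl⟩ := Nat.exists_eq_add_of_le h
    rw [mul_add, key (W * c) t (c + t) hv]
  · obtain ⟨t, rfl⟩ := Nat.exists_eq_add_of_le h
    rw [mul_add, key (W * v) t v hv']

theorem th_mul (hb : 2 ≤ b) (S : Sys b Q) (W : ℕ) (hW1 : 1 ≤ W)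
    (hW : S.σ W 0 ∘ S.σ W 0 = S.σ W 0) (u v M : ℕ) (hM : W ∣ M) (hWM : W ≤ M)
    (hv : v < b ^ (M - W)) : th S W (b ^ M * u + v) = th S W u ∘ th S W v := by
  have hu : u < b ^ (W * u) := by
    calc u < b ^ u := Nat.lt_pow_self (by omega)
      _ ≤ b ^ (W * u) := Nat.pow_le_pow_right (by omega) (Nat.le_mul_of_pos_left _ hW1)
  have hvM : v < b ^ M := hv.trans_le (Nat.pow_le_pow_right (by omega) (Nat.sub_le _ _))
  have h1 : b ^ M * u + v < b ^ (M + W * u) := by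
    rw [pow_add]
    calc b ^ M * u + v < b ^ M * u + b ^ M := by omega
      _ = b ^ M * (u + 1) := by ring
      _ ≤ b ^ M * b ^ (W * u) := Nat.mul_le_mul_left _ hu
  rw [← th_eq hb S W hW1 hW (M + W * u) _ (Dvd.dvd.add hM (Dvd.intro _ rfl)) h1, add_assoc,
    S.comp M v (W * u + W) u hvM (hu.trans_le (Nat.pow_le_pow_right (by omega) (by omega)))]
  have h2 : S.σ M v = th S W v := by
    rw [← th_eq hb S W hW1 hW (M - W) v (Nat.dvd_sub hM dvd_rfl) hv, Nat.sub_add_cancel hWM]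
  rw [h2]
  rfl

/-! ### ranks -/

section rank
variable [Fintype Q]

/-- rank of a map -/
noncomputable def rk (F : Q → Q) : ℕ := (univ.image F).card

theorem image_comp_subset (F G : Q → Q) : univ.image (F ∘ G) ⊆ univ.image F := by
  intro y hy
  rw [Finset.mem_image] at hy ⊢
  obtain ⟨x, -, rfl⟩ := hy
  exact ⟨G x, mem_univ _, rfl⟩

theorem image_comp_eq (F G : Q → Q) : univ.image (F ∘ G) = (univ.image G).image F := by
  rw [Finset.image_image]

theorem rk_comp_le_left (F G : Q → Q) : rk (F ∘ G) ≤ rk F :=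
  Finset.card_le_card (image_comp_subset F G)

theorem rk_comp_le_right (F G : Q → Q) : rk (F ∘ G) ≤ rk G := by
  unfold rk
  rw [image_comp_eq]
  exact Finset.card_image_le

theorem injOn_of_rk (F G : Q → Q) (h : rk G ≤ rk (F ∘ G)) : Set.InjOn F (univ.image G : Finset Q) := by
  rw [← Finset.card_image_iff]
  have h1 := rk_comp_le_right F G
  unfold rk at h h1
  rw [image_comp_eq] at h h1
  omega

/-- the minimal rank -/
theorem exists_min (hb : 2 ≤ b) (S : Sys b Q) : ∃ ℓz z : ℕ, z < b ^ ℓz ∧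
    ∀ ℓ v : ℕ, v < b ^ ℓ → rk (S.σ ℓz z) ≤ rk (S.σ ℓ v) := by
  have hex : ∃ r, ∃ ℓ v : ℕ, v < b ^ ℓ ∧ rk (S.σ ℓ v) = r := ⟨_, 0, 0, by positivity, rfl⟩
  obtain ⟨ℓ, v, hv, hr⟩ := Nat.find_spec hex
  refine ⟨ℓ, v, hv, fun ℓ' v' hv' => ?_⟩
  rw [hr]
  exact Nat.find_min' hex ⟨ℓ', v', hv', rfl⟩

end rank

end Pool.Agent.Work.MP_b928c0_nt_aut
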