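import Pool.Agent.Work.MP_b928c0_nt_aut.Core

/-!
# MP_b928c0_nt: automatic sets contain long geometric progressions. Deep numbers and the recurrence
-/

set_option autoImplicit false

namespace Pool.Agent.Work.MP_b928c0_nt_aut

open Finset Classical

variable {b : ℕ} {Q : Type} [Fintype Q]

/-- everything about the base system in one package -/
structure Base (b : ℕ) (Q : Type) [Fintype Q] where
  S : Sys b Q
  hb : 2 ≤ b
  W : ℕ
  hW1 : 1 ≤ W
  hW : S.σ W 0 ∘ S.σ W 0 = S.σ W 0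
  ρ : ℕ
  ℓz : ℕ
  z : ℕ
  hz : z < b ^ ℓz
  hρ : rk (S.σ ℓz z) = ρ
  hmin : ∀ ℓ v : ℕ, v < b ^ ℓ → ρ ≤ rk (S.σ ℓ v)

namespace Base

variable (X : Base b Q)

/-- stable action -/
def θ (v : ℕ) : Q → Q := th X.S X.W v

include X in
theorem lt_pow (v t : ℕ) (h : v ≤ t) : v < b ^ t :=
  (Nat.lt_pow_self (by have := X.hb; omega)).trans_le
    (Nat.pow_le_pow_right (by have := X.hb; omega) h)

theorem θ_eq (ℓ v : ℕ) (hℓ : X.W ∣ ℓ) (hv : v < b ^ ℓ) : X.S.σ (ℓ + X.W) v = X.θ v :=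
  th_eq X.hb X.S X.W X.hW1 X.hW ℓ v hℓ hv

theorem θ_mul (u v M : ℕ) (hM : X.W ∣ M) (hWM : X.W ≤ M) (hv : v < b ^ (M - X.W)) :
    X.θ (b ^ M * u + v) = X.θ u ∘ X.θ v :=
  th_mul X.hb X.S X.W X.hW1 X.hW u v M hM hWM hv

theorem ρ_le (v : ℕ) : X.ρ ≤ rk (X.θ v) := by
  unfold θ th
  refine X.hmin _ _ (X.lt_pow v _ ?_)
  have := Nat.le_mul_of_pos_left v X.hW1
  omega

/-- deep numbers: minimal rank -/
def Deep (v : ℕ) : Prop := rk (X.θ v) ≤ X.ρ

theorem deep_left (u v M : ℕ) (hM : X.W ∣ M) (hWM : X.W ≤ M) (hv : v < b ^ (M - X.W))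
    (h : X.Deep u) : X.Deep (b ^ M * u + v) := by
  unfold Deep at *
  rw [X.θ_mul u v M hM hWM hv]
  exact (rk_comp_le_left _ _).trans h

theorem deep_right (u v M : ℕ) (hM : X.W ∣ M) (hWM : X.W ≤ M) (hv : v < b ^ (M - X.W))
    (h : X.Deep v) : X.Deep (b ^ M * u + v) := by
  unfold Deep at *
  rw [X.θ_mul u v M hM hWM hv]
  exact (rk_comp_le_right _ _).trans h

/-- some multiple of `c` is deep -/
theorem exists_deep_mul (c : ℕ) (hc : 1 ≤ c) : ∃ u, X.Deep (c * u) := by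
  have hb := X.hb
  set u := (X.z * b ^ c + c - 1) / c with hu
  have h1 := Nat.div_add_mod (X.z * b ^ c + c - 1) c
  have h2 := Nat.mod_lt (X.z * b ^ c + c - 1) (show 0 < c by omega)
  rw [← hu] at h1
  obtain ⟨ε, hε1, hε2⟩ : ∃ ε, c * u = b ^ c * X.z + ε ∧ ε < b ^ c := by
    have h3 : c < b ^ c := X.lt_pow c c le_rfl
    have h4 : X.z * b ^ c = b ^ c * X.z := mul_comm _ _
    refine ⟨c * u - b ^ c * X.z, by omega, by omega⟩
  refine ⟨u, ?_⟩
  unfold Deep
  set t := c + X.ℓz with ht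
  have h5 : c * u < b ^ t := by
    rw [hε1, ht, pow_add]
    calc b ^ c * X.z + ε < b ^ c * X.z + b ^ c := by omega
      _ = b ^ c * (X.z + 1) := by ring
      _ ≤ b ^ c * b ^ X.ℓz := Nat.mul_le_mul_left _ X.hz
  have h6 : c * u < b ^ (X.W * t) :=
    h5.trans_le (Nat.pow_le_pow_right (by omega) (Nat.le_mul_of_pos_left _ X.hW1))
  rw [← X.θ_eq (X.W * t) _ (Dvd.intro _ rfl) h6]
  obtain ⟨s, hs⟩ : ∃ s, X.W * t + X.W = c + (X.ℓz + s) := by
    have := Nat.le_mul_of_pos_left t X.hW1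
    exact ⟨X.W * t + X.W - t, by omega⟩
  rw [hs, hε1, X.S.comp c ε (X.ℓz + s) X.z hε2
    (X.hz.trans_le (Nat.pow_le_pow_right (by omega) (by omega)))]
  have h7 := X.S.comp X.ℓz X.z s 0 X.hz (by positivity)
  rw [mul_zero, zero_add] at h7
  rw [h7]
  refine (rk_comp_le_left _ _).trans ((rk_comp_le_right _ _).trans X.hρ.le)

/-- a number all whose multiples up to `C0` are deep -/
theorem exists_deep (C0 : ℕ) : ∃ v, ∀ c, 1 ≤ c → c ≤ C0 → X.Deep (c * v) := by
  induction C0 with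
  | zero => exact ⟨0, fun c h1 h2 => by omega⟩
  | succ C0 ih =>
    obtain ⟨v, hv⟩ := ih
    obtain ⟨u, hu⟩ := X.exists_deep_mul (C0 + 1) (by omega)
    have hM : X.W ∣ X.W * ((C0 + 1) * v + 1) := Dvd.intro _ rfl
    have hWM : X.W ≤ X.W * ((C0 + 1) * v + 1) := Nat.le_mul_of_pos_right _ (by omega)
    refine ⟨b ^ (X.W * ((C0 + 1) * v + 1)) * u + v, fun c h1 h2 => ?_⟩
    have h3 : c * (b ^ (X.W * ((C0 + 1) * v + 1)) * u + v) =
        b ^ (X.W * ((C0 + 1) * v + 1)) * (c * u) + c * v := by ring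
    rw [h3]
    have h4 : c * v < b ^ (X.W * ((C0 + 1) * v + 1) - X.W) := by
      refine X.lt_pow _ _ ?_
      have h5 : X.W * ((C0 + 1) * v + 1) - X.W = X.W * ((C0 + 1) * v) := by
        rw [mul_add, mul_one, Nat.add_sub_cancel]
      rw [h5]
      exact (Nat.mul_le_mul_right v h2).trans (Nat.le_mul_of_pos_left _ X.hW1)
    rcases Nat.lt_or_ge C0 c with h | h
    · have h6 : c = C0 + 1 := by omega
      subst h6
      exact X.deep_left _ _ _ hM hWM h4 hu
    · exact X.deep_right _ _ _ hM hWM h4 (hv c h1 h)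

/-! ### the recurrence -/

/-- partial sums of the binomial expansion of `c n (B + R) ^ j` -/
def Sm (n B R j c t : ℕ) : ℕ := ∑ i ∈ Finset.Ico t (j + 1), c * n * j.choose i * R ^ (j - i) * B ^ (i - t)

theorem Sm_top (n B R j c : ℕ) : Sm n B R j c (j + 1) = 0 := by simp [Sm]

theorem Sm_zero (n B R j c : ℕ) : Sm n B R j c 0 = c * n * (B + R) ^ j := by
  unfold Sm
  rw [add_pow, Finset.mul_sum, Finset.range_eq_Ico]
  refine Finset.sum_congr rfl fun i _ => ?_
  rw [Nat.sub_zero, Nat.cast_id]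
  ring

theorem Sm_step (n B R j c t : ℕ) (ht : t ≤ j) :
    Sm n B R j c t = B * Sm n B R j c (t + 1) + c * n * j.choose t * R ^ (j - t) := by
  unfold Sm
  rw [Finset.sum_eq_sum_Ico_succ_bot (by omega : t < j + 1), Nat.sub_self, pow_zero, mul_one,
    Finset.mul_sum, add_comm]
  congr 1
  refine Finset.sum_congr rfl fun i hi => ?_
  rw [Finset.mem_Ico] at hi
  rw [show i - t = (i - (t + 1)) + 1 by omega, pow_succ]
  ring

/-- a bound for all coefficients -/
def bd (n k C0 R : ℕ) : ℕ := C0 * n * 2 ^ k * (R + 1) ^ k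

/-- the exponent used at `R` -/
def ex (n k C0 R : ℕ) : ℕ := X.W * (bd n k C0 R + 1)

theorem coef_le (n k C0 R j c t : ℕ) (hj : j ≤ k) (hc : c ≤ C0) :
    c * n * j.choose t * R ^ (j - t) ≤ bd n k C0 R := by
  unfold bd
  have h1 : j.choose t ≤ 2 ^ k := (Nat.choose_le_two_pow j t).trans
    (Nat.pow_le_pow_right (by norm_num) hj)
  have h2 : R ^ (j - t) ≤ (R + 1) ^ k := (Nat.pow_le_pow_left (Nat.le_succ R) _).trans
    (Nat.pow_le_pow_right (by omega) (by omega))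
  exact Nat.mul_le_mul (Nat.mul_le_mul (Nat.mul_le_mul_right n hc) h1) h2

/-- admissible exponents at `R` -/
def Adm (n k C0 R M : ℕ) : Prop := X.W ∣ M ∧ X.ex n k C0 R ≤ M

theorem θ_step (n k C0 R M j c t : ℕ) (hM : X.Adm n k C0 R M) (hj : j ≤ k) (hc : c ≤ C0)
    (ht : t ≤ j) : X.θ (Sm n (b ^ M) R j c t) =
      X.θ (Sm n (b ^ M) R j c (t + 1)) ∘ X.θ (c * n * j.choose t * R ^ (j - t)) := by
  rw [Sm_step _ _ _ _ _ _ ht]
  have h0 : X.W ≤ X.ex n k C0 R := Nat.le_mul_of_pos_right _ (by omega)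
  refine X.θ_mul _ _ _ hM.1 (h0.trans hM.2) ?_
  refine X.lt_pow _ _ ?_
  have h1 : X.ex n k C0 R - X.W ≤ M - X.W := Nat.sub_le_sub_right hM.2 _
  refine le_trans ?_ h1
  unfold ex
  rw [mul_add, mul_one, Nat.add_sub_cancel]
  exact (coef_le n k C0 R j c t hj hc).trans (Nat.le_mul_of_pos_left _ X.hW1)

/-- the vector of actions -/
def F (n R j c : ℕ) : Q → Q := X.θ (c * n * R ^ j)

theorem F_one (n j c : ℕ) : X.F n 1 j c = X.θ (c * n) := by
  unfold F
  rw [one_pow, mul_one]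

theorem F_add (n R M j c : ℕ) : X.F n (b ^ M + R) j c = X.θ (Sm n (b ^ M) R j c 0) := by
  unfold F
  rw [Sm_zero]

theorem image_Sm (n k C0 R M j c : ℕ) (hM : X.Adm n k C0 R M) (hj : j ≤ k) (hc : c ≤ C0) (t : ℕ)
    (ht : t ≤ j) :
    univ.image (X.θ (Sm n (b ^ M) R j c (j - t))) ⊆ univ.image (X.θ (c * n)) := by
  induction t with
  | zero =>
    have h1 : Sm n (b ^ M) R j c j = c * n := by
      rw [Sm_step _ _ _ _ _ _ le_rfl, Sm_top]
      simp
    rw [Nat.sub_zero, h1]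
  | succ t ih =>
    rw [X.θ_step n k C0 R M j c (j - (t + 1)) hM hj hc (Nat.sub_le _ _),
      show j - (t + 1) + 1 = j - t by omega]
    exact (image_comp_subset _ _).trans (ih (by omega))

/-- `R` is `1` or obtained by an admissible step -/
def Reach (n k C0 R : ℕ) : Prop := R = 1 ∨ ∃ M R', X.Adm n k C0 R' M ∧ R = b ^ M + R'

theorem image_F (n k C0 R j c : ℕ) (hR : X.Reach n k C0 R) (hj : j ≤ k) (hc : c ≤ C0)
    (hd : X.Deep (c * n)) : univ.image (X.F n R j c) = univ.image (X.θ (c * n)) := by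
  rcases hR with rfl | ⟨M, R', hM, rfl⟩
  · rw [F_one]
  · rw [F_add]
    have h2 := X.image_Sm n k C0 R' M j c hM hj hc j le_rfl
    rw [Nat.sub_self] at h2
    refine Finset.eq_of_subset_of_card_le h2 ?_
    exact le_trans hd (X.ρ_le _)

/-- the upper part is determined by the lower levels -/
theorem upper_eq (n k C0 R M R' M' j c : ℕ) (hM : X.Adm n k C0 R M) (hM' : X.Adm n k C0 R' M')
    (hj : j ≤ k) (hc : 1 ≤ c) (hcj : c * j.factorial ≤ C0)
    (H : ∀ j' c', j' < j → 1 ≤ c' → c' * j'.factorial ≤ C0 →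
      X.F n R j' c' = X.F n R' j' c') (t : ℕ) (ht : t ≤ j) :
    X.θ (Sm n (b ^ M) R j c (j + 1 - t)) = X.θ (Sm n (b ^ M') R' j c (j + 1 - t)) := by
  have hcC : c ≤ C0 := (Nat.le_mul_of_pos_right c (Nat.factorial_pos j)).trans hcj
  induction t with
  | zero => rw [Nat.sub_zero, Sm_top, Sm_top]
  | succ t ih =>
    have e1 : j + 1 - (t + 1) ≤ j := by omega
    rw [X.θ_step n k C0 _ _ j c _ hM hj hcC e1, X.θ_step n k C0 _ _ j c _ hM' hj hcC e1,
      show j + 1 - (t + 1) + 1 = j + 1 - t by omega, ih (by omega)]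
    congr 1
    have e2 : 1 ≤ j + 1 - (t + 1) := by omega
    set s := j + 1 - (t + 1) with hs
    have h1 := H (j - s) (c * j.choose s) (by omega)
      (Nat.mul_pos hc (Nat.choose_pos e1)) (by
        calc c * j.choose s * (j - s).factorial ≤ c * (j.choose s * s.factorial * (j - s).factorial) := by
              have h3 : 1 ≤ s.factorial := Nat.factorial_pos s
              calc c * j.choose s * (j - s).factorial = c * (j.choose s * 1 * (j - s).factorial) := by ring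
                _ ≤ _ := Nat.mul_le_mul_left _ (Nat.mul_le_mul_right _ (Nat.mul_le_mul_left _ h3))
          _ = c * j.factorial := by rw [Nat.choose_mul_factorial_mul_factorial e1]
          _ ≤ C0 := hcj)
    unfold F at h1
    have h2 : ∀ R : ℕ, c * j.choose s * n * R ^ (j - s) = c * n * j.choose s * R ^ (j - s) :=
      fun R => by ring
    rw [h2, h2] at h1
    exact h1

theorem F_add' (n k C0 R M j c : ℕ) (hM : X.Adm n k C0 R M) (hj : j ≤ k) (hc : c ≤ C0) :
    X.F n (b ^ M + R) j c = X.θ (Sm n (b ^ M) R j c 1) ∘ X.F n R j c := by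
  rw [F_add, X.θ_step n k C0 _ _ j c 0 hM hj hc (Nat.zero_le _)]
  unfold F
  simp

/-- equality of the vectors -/
def VEq (n k C0 R R' : ℕ) : Prop :=
  ∀ j c, j ≤ k → 1 ≤ c → c * j.factorial ≤ C0 → X.F n R j c = X.F n R' j c

/-- one step forwards -/
theorem forth (n k C0 R M R' M' : ℕ) (hM : X.Adm n k C0 R M) (hM' : X.Adm n k C0 R' M')
    (H : X.VEq n k C0 R R') : X.VEq n k C0 (b ^ M + R) (b ^ M' + R') := by
  intro j c hj hc hcj
  have hcC : c ≤ C0 := (Nat.le_mul_of_pos_right c (Nat.factorial_pos j)).trans hcj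
  rw [X.F_add' n k C0 R M j c hM hj hcC, X.F_add' n k C0 R' M' j c hM' hj hcC, H j c hj hc hcj]
  have h4 := X.upper_eq n k C0 R M R' M' j c hM hM' hj hc hcj
    (fun j' c' hj' hc' hcj' => H j' c' (by omega) hc' hcj') j le_rfl
  rw [Nat.add_sub_cancel_left] at h4
  rw [h4]

/-- one step backwards -/
theorem back (n k C0 R M R' M' : ℕ) (hd : ∀ c, 1 ≤ c → c ≤ C0 → X.Deep (c * n))
    (hR : X.Reach n k C0 R) (hR' : X.Reach n k C0 R')
    (hM : X.Adm n k C0 R M) (hM' : X.Adm n k C0 R' M')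
    (H : X.VEq n k C0 (b ^ M + R) (b ^ M' + R')) : X.VEq n k C0 R R' := by
  intro j
  induction j using Nat.strong_induction_on with
  | _ j ih =>
    intro c hj hc hcj
    have hcC : c ≤ C0 := (Nat.le_mul_of_pos_right c (Nat.factorial_pos j)).trans hcj
    have h3 := H j c hj hc hcj
    rw [X.F_add' n k C0 R M j c hM hj hcC, X.F_add' n k C0 R' M' j c hM' hj hcC] at h3
    have h4 := X.upper_eq n k C0 R M R' M' j c hM hM' hj hc hcj
      (fun j' c' hj' hc' hcj' => ih j' hj' c' (by omega) hc' hcj') j le_rfl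
    rw [Nat.add_sub_cancel_left] at h4
    rw [← h4] at h3
    have h5 : Set.InjOn (X.θ (Sm n (b ^ M) R j c 1)) (univ.image (X.F n R j c) : Finset Q) := by
      refine injOn_of_rk _ _ ?_
      rw [← X.F_add' n k C0 R M j c hM hj hcC]
      have h6 : rk (X.F n R j c) ≤ X.ρ := by
        unfold rk
        rw [X.image_F n k C0 R j c hR hj hcC (hd c hc hcC)]
        exact hd c hc hcC
      exact h6.trans (X.ρ_le _)
    funext x
    refine h5 ?_ ?_ (congrFun h3 x)
    · rw [Finset.mem_coe]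
      exact Finset.mem_image_of_mem _ (mem_univ x)
    · rw [Finset.mem_coe, X.image_F n k C0 R j c hR hj hcC (hd c hc hcC),
        ← X.image_F n k C0 R' j c hR' hj hcC (hd c hc hcC)]
      exact Finset.mem_image_of_mem _ (mem_univ x)

/-- the canonical sequence -/
def Rs (n k C0 : ℕ) : ℕ → ℕ
  | 0 => 1
  | N + 1 => b ^ (X.ex n k C0 (Rs n k C0 N)) + Rs n k C0 N

theorem adm_ex (n k C0 R : ℕ) : X.Adm n k C0 R (X.ex n k C0 R) := ⟨Dvd.intro _ rfl, le_rfl⟩

theorem reach_Rs (n k C0 N : ℕ) : X.Reach n k C0 (X.Rs n k C0 N) := by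
  cases N with
  | zero => exact Or.inl rfl
  | succ N => exact Or.inr ⟨_, _, X.adm_ex n k C0 _, rfl⟩

/-- return to the starting vector -/
theorem exists_return (n k C0 : ℕ) (hd : ∀ c, 1 ≤ c → c ≤ C0 → X.Deep (c * n)) :
    ∃ N, 1 ≤ N ∧ X.VEq n k C0 (X.Rs n k C0 N) 1 := by
  obtain ⟨N1, N2, hne, heq⟩ := Finite.exists_ne_map_eq_of_infinite
    (fun (N : ℕ) (p : Fin (k + 1) × Fin (C0 + 1)) => X.F n (X.Rs n k C0 N) p.1 p.2)
  have h0 : ∀ m d : ℕ, X.VEq n k C0 (X.Rs n k C0 m) (X.Rs n k C0 (m + d)) →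
      X.VEq n k C0 (X.Rs n k C0 d) 1 := by
    intro m
    induction m with
    | zero =>
      intro d h j c hj hc hcj
      rw [Nat.zero_add] at h
      exact (h j c hj hc hcj).symm
    | succ m ih =>
      intro d h
      refine ih d (X.back n k C0 _ _ _ _ hd (X.reach_Rs n k C0 m) (X.reach_Rs n k C0 (m + d))
        (X.adm_ex n k C0 _) (X.adm_ex n k C0 _) ?_)
      rw [show m + 1 + d = (m + d) + 1 by ring] at h
      exact h
  have h1 : X.VEq n k C0 (X.Rs n k C0 N1) (X.Rs n k C0 N2) := by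
    intro j c hj hc hcj
    have hcC : c ≤ C0 := (Nat.le_mul_of_pos_right c (Nat.factorial_pos j)).trans hcj
    exact congrFun heq (⟨j, by omega⟩, ⟨c, by omega⟩)
  rcases lt_or_gt_of_ne hne with h | h
  · refine ⟨N2 - N1, by omega, h0 N1 (N2 - N1) ?_⟩
    rw [Nat.add_sub_cancel' h.le]
    exact h1
  · refine ⟨N1 - N2, by omega, h0 N2 (N1 - N2) ?_⟩
    rw [Nat.add_sub_cancel' (le_of_lt h)]
    exact fun j c hj hc hcj => (h1 j c hj hc hcj).symm

/-! ### flexible steps -/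

/-- `s` is a sum of `N` powers `b ^ M` added successively to `R` by admissible steps -/
inductive Inc (n k C0 : ℕ) : ℕ → ℕ → ℕ → Prop
  | zero (R : ℕ) : Inc n k C0 0 R 0
  | step (N R M s : ℕ) (hM : X.Adm n k C0 R M) (h : Inc n k C0 N (b ^ M + R) s) :
      Inc n k C0 (N + 1) R (b ^ M + s)

theorem ex_mono (n k C0 R R' : ℕ) (h : R' ≤ R) : X.ex n k C0 R' ≤ X.ex n k C0 R := by
  unfold ex bd
  gcongr

theorem Inc.mono {n k C0 N R s : ℕ} (h : X.Inc n k C0 N R s) : ∀ R', R' ≤ R →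
    X.Inc n k C0 N R' s := by
  induction h with
  | zero R => exact fun R' _ => Inc.zero R'
  | step N R M s hM h ih =>
    intro R' hR'
    exact Inc.step N R' M s ⟨hM.1, (X.ex_mono n k C0 R R' hR').trans hM.2⟩ (ih _ (by omega))

theorem Inc.append {n k C0 N R s : ℕ} (h : X.Inc n k C0 N R s) : ∀ N' s',
    X.Inc n k C0 N' (R + s) s' → X.Inc n k C0 (N + N') R (s + s') := by
  induction h with
  | zero R =>
    intro N' s' h'
    rw [Nat.zero_add, Nat.zero_add]
    exact h'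
  | step N R M s hM h ih =>
    intro N' s' h'
    rw [show N + 1 + N' = (N + N') + 1 by ring, show b ^ M + s + s' = b ^ M + (s + s') by ring]
    refine Inc.step _ _ _ _ hM (ih N' s' ?_)
    rw [show b ^ M + R + s = R + (b ^ M + s) by ring]
    exact h'

theorem exists_inc (n k C0 N : ℕ) : ∀ R, ∃ s, X.Inc n k C0 N R s := by
  induction N with
  | zero => exact fun R => ⟨0, Inc.zero R⟩
  | succ N ih =>
    intro R
    obtain ⟨s, hs⟩ := ih (b ^ X.ex n k C0 R + R)
    exact ⟨_, Inc.step N R _ s (X.adm_ex n k C0 R) hs⟩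

/-- the vector after `N` steps depends only on the vector at the start -/
theorem Inc.vEq {n k C0 N R s : ℕ} (h : X.Inc n k C0 N R s) : ∀ R' s',
    X.Inc n k C0 N R' s' → X.VEq n k C0 R R' → X.VEq n k C0 (R + s) (R' + s') := by
  induction h with
  | zero R =>
    intro R' s' h' hV
    cases h'
    exact hV
  | step N R M s hM h ih =>
    intro R' s' h' hV
    cases h' with
    | step _ _ M' s'' hM' h'' =>
      have h1 := ih _ _ h'' (X.forth n k C0 R M R' M' hM hM' hV)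
      rw [show R + (b ^ M + s) = b ^ M + R + s by ring,
        show R' + (b ^ M' + s'') = b ^ M' + R' + s'' by ring]
      exact h1

theorem inc_Rs (n k C0 N : ℕ) : ∃ s, X.Inc n k C0 N 1 s ∧ X.Rs n k C0 N = 1 + s := by
  induction N with
  | zero => exact ⟨0, Inc.zero 1, rfl⟩
  | succ N ih =>
    obtain ⟨s, hs, he⟩ := ih
    refine ⟨s + (b ^ (X.ex n k C0 (1 + s)) + 0), ?_, ?_⟩
    · exact hs.append X 1 _ (Inc.step 0 _ _ 0 (X.adm_ex n k C0 _) (Inc.zero _))
    · show b ^ (X.ex n k C0 (X.Rs n k C0 N)) + X.Rs n k C0 N = _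
      rw [he]
      ring

/-- splitting -/
theorem Inc.split {n k C0 : ℕ} (N N' : ℕ) : ∀ R s, X.Inc n k C0 (N + N') R s →
    ∃ s1 s2, s = s1 + s2 ∧ X.Inc n k C0 N R s1 ∧ X.Inc n k C0 N' (R + s1) s2 := by
  induction N with
  | zero =>
    intro R s h
    rw [Nat.zero_add] at h
    exact ⟨0, s, by ring, Inc.zero R, h⟩
  | succ N ih =>
    intro R s h
    rw [show N + 1 + N' = (N + N') + 1 by ring] at h
    cases h with
    | step _ _ M s' hM h' =>
      obtain ⟨s1, s2, rfl, h1, h2⟩ := ih _ _ h'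
      refine ⟨b ^ M + s1, s2, by ring, Inc.step _ _ _ _ hM h1, ?_⟩
      rw [show R + (b ^ M + s1) = b ^ M + R + s1 by ring]
      exact h2

/-- the set of good increments above the level `m` -/
def SS (n k C0 D m : ℕ) : Set ℕ := {s | ∃ t, 1 ≤ t ∧ X.Inc n k C0 (D * t) m s}

/-- **flexible return**: there is `D ≥ 1` such that every increment of a multiple of `D` steps
returns to the starting vector -/
theorem exists_period (n k C0 : ℕ) (hd : ∀ c, 1 ≤ c → c ≤ C0 → X.Deep (c * n)) :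
    ∃ D, 1 ≤ D ∧ ∀ s ∈ X.SS n k C0 D 1, X.VEq n k C0 (1 + s) 1 := by
  obtain ⟨D, hD, hV⟩ := X.exists_return n k C0 hd
  obtain ⟨s0, hs0, he0⟩ := X.inc_Rs n k C0 D
  rw [he0] at hV
  have key : ∀ t R s, X.VEq n k C0 R 1 → X.Inc n k C0 (D * t) R s → X.VEq n k C0 (R + s) 1 := by
    intro t
    induction t with
    | zero =>
      intro R s h1 h2
      rw [mul_zero] at h2
      cases h2
      exact h1
    | succ t ih =>
      intro R s h1 h2
      rw [mul_add, mul_one] at h2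
      obtain ⟨s1, s2, rfl, h3, h4⟩ := Inc.split X (D * t) D _ _ h2
      have h5 := ih R s1 h1 h3
      have h6 := h4.vEq X 1 s0 hs0 h5
      rw [← add_assoc]
      exact fun j c hj hc hcj => (h6 j c hj hc hcj).trans (hV j c hj hc hcj)
  refine ⟨D, hD, ?_⟩
  rintro s ⟨t, -, ht⟩
  exact key t 1 s (fun j c _ _ _ => rfl) ht

theorem SS_nonempty (n k C0 D m : ℕ) : (X.SS n k C0 D m).Nonempty := by
  obtain ⟨s, hs⟩ := X.exists_inc n k C0 (D * 1) m
  exact ⟨s, 1, le_rfl, hs⟩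

theorem SS_anti (n k C0 D m m' : ℕ) (h : m ≤ m') : X.SS n k C0 D m' ⊆ X.SS n k C0 D m := by
  rintro s ⟨t, ht, hs⟩
  exact ⟨t, ht, hs.mono X m h⟩

theorem SS_add (n k C0 D m s s' : ℕ) (hs : s ∈ X.SS n k C0 D m)
    (hs' : s' ∈ X.SS n k C0 D (m + s)) : s + s' ∈ X.SS n k C0 D m := by
  obtain ⟨t, ht, h⟩ := hs
  obtain ⟨t', ht', h'⟩ := hs'
  refine ⟨t + t', by omega, ?_⟩
  rw [mul_add]
  exact h.append X _ _ h'

theorem SS_pos (n k C0 D m s : ℕ) (hD : 1 ≤ D) (hs : s ∈ X.SS n k C0 D m) : 1 ≤ s := by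
  obtain ⟨t, ht, h⟩ := hs
  have h1 : D * t ≠ 0 := Nat.mul_ne_zero (by omega) (by omega)
  obtain ⟨N, hN⟩ := Nat.exists_eq_succ_of_ne_zero h1
  rw [hN] at h
  cases h with
  | step _ _ M s' hM h' =>
    have : 1 ≤ b ^ M := Nat.one_le_pow _ _ (by have := X.hb; omega)
    omega

end Base

end Pool.Agent.Work.MP_b928c0_nt_aut
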