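import Pool.Agent.Work.MP_b928c0_nt_aut.Auto

/-!
# MP_b928c0_nt: almost all elements of a tame set start a long geometric progression
-/

set_option autoImplicit false

namespace Pool.Agent.Work.MP_b928c0_nt_aut

open Finset Classical

/-- almost all elements of a finite union of sets `A ∩ V ∩ W` are first terms of geometric
progressions of `k` terms in one of these sets -/
theorem tame_almost {m : ℕ} (b : Fin m → ℕ) (hb : ∀ i, 2 ≤ b i) (A V W : Fin m → Set ℕ)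
    (hA : ∀ i, (kr (b i) (A i)).Finite) (hV : ∀ i, PolyOpen (V i))
    (hW : ∀ i, ∃ q, 1 ≤ q ∧ ∀ n ∈ W i, ∀ R, 1 ≤ R → n * R ^ q ∈ W i)
    (k : ℕ) (δ : ℝ) (hδ : 0 < δ) : ∃ H0 : ℕ, ∀ x H : ℕ, H0 ≤ H →
      (((Ico x (x + H)).filter (fun n => (∃ i, n ∈ A i ∧ n ∈ V i ∧ n ∈ W i) ∧
        ¬ ∃ r : ℕ, 2 ≤ r ∧ ∃ i, ∀ j < k, n * r ^ j ∈ A i ∧ n * r ^ j ∈ V i ∧
          n * r ^ j ∈ W i)).card : ℝ) ≤ δ * H := by
  choose q hq1 hq using hW
  choose H0 h0 using fun i => almost_all (b i) (hb i) (A i) (hA i) (q i * k) 1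
    (δ / (m + 1)) (by positivity)
  refine ⟨∑ i, H0 i, fun x H hH => ?_⟩
  have hHi : ∀ i, H0 i ≤ H := fun i =>
    (Finset.single_le_sum (f := H0) (fun _ _ => Nat.zero_le _) (Finset.mem_univ i)).trans hH
  set Z : Fin m → Finset ℕ := fun i => (Ico x (x + H)).filter (fun n =>
    ¬ ∀ (Ps : Finset (Polynomial ℝ)) (ε : ℝ), 0 < ε → ∃ r : ℕ, Ratio (A i) (q i * k) 1 Ps ε n r)
    with hZ
  have h3 : ((Ico x (x + H)).filter (fun n => (∃ i, n ∈ A i ∧ n ∈ V i ∧ n ∈ W i) ∧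
        ¬ ∃ r : ℕ, 2 ≤ r ∧ ∃ i, ∀ j < k, n * r ^ j ∈ A i ∧ n * r ^ j ∈ V i ∧
          n * r ^ j ∈ W i)) ⊆ Finset.univ.biUnion Z := by
    intro n hn
    rw [Finset.mem_filter] at hn
    rw [Finset.mem_biUnion]
    obtain ⟨hn1, ⟨i, hA', hV', hW'⟩, hn2⟩ := hn
    refine ⟨i, Finset.mem_univ i, ?_⟩
    rw [hZ, Finset.mem_filter]
    refine ⟨hn1, fun hall => ?_⟩
    obtain ⟨Ps, ε, hε, hPs⟩ := hV i n hV'
    obtain ⟨r, hr, h⟩ := hall Ps ε hε
    refine hn2 ⟨r ^ q i, ?_, i, fun j hj => ?_⟩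
    · calc 2 ≤ r := hr
        _ = r ^ 1 := (pow_one r).symm
        _ ≤ r ^ q i := Nat.pow_le_pow_right (by omega) (hq1 i)
    · have hj' : q i * j ≤ q i * k := Nat.mul_le_mul_left _ hj.le
      obtain ⟨h4, h5⟩ := h 1 le_rfl (q i * j) hj'
      rw [← pow_mul]
      refine ⟨?_, hPs _ fun P hP => ?_, ?_⟩
      · have := h4.mpr (by simpa using hA')
        simpa using this
      · have := h5 P hP
        simpa using this
      · rw [mul_comm (q i) j, pow_mul]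
        exact hq i n hW' _ (Nat.one_le_pow _ _ (by omega))
  have h4 := (Finset.card_le_card h3).trans Finset.card_biUnion_le
  have h8 : ∑ i, ((Z i).card : ℝ) ≤ ∑ i : Fin m, δ / (m + 1) * H :=
    Finset.sum_le_sum fun i _ => h0 i x H (hHi i)
  rw [Finset.sum_const, Finset.card_univ, Fintype.card_fin, nsmul_eq_mul] at h8
  have h9 : (m : ℝ) * (δ / (m + 1) * H) ≤ δ * H := by
    have e1 : (0 : ℝ) ≤ H := Nat.cast_nonneg H
    have e2 : (0 : ℝ) < (m : ℝ) + 1 := by positivity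
    have e3 : (m : ℝ) * (δ / (m + 1) * H) = (m / (m + 1)) * (δ * H) := by
      field_simp
    rw [e3]
    have e4 : (m : ℝ) / (m + 1) ≤ 1 := by
      rw [div_le_one e2]; linarith
    calc (m : ℝ) / (m + 1) * (δ * H) ≤ 1 * (δ * H) := mul_le_mul_of_nonneg_right e4 (by positivity)
      _ = _ := one_mul _
  refine le_trans ?_ (h8.trans h9)
  exact_mod_cast h4

/-- from almost all to existence -/
theorem exists_of_almost (B : Set ℕ) (k : ℕ)
    (h : ∀ δ : ℝ, 0 < δ → ∃ H0 : ℕ, ∀ x H : ℕ, H0 ≤ H →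
      (((Ico x (x + H)).filter (fun n => n ∈ B ∧
        ¬ ∃ r : ℕ, 2 ≤ r ∧ ∀ j < k, n * r ^ j ∈ B)).card : ℝ) ≤ δ * H)
    (δ : ℝ) (hδ : 0 < δ) (hd : ∀ H0 : ℕ, ∃ x H : ℕ, H0 ≤ H ∧
      δ * H ≤ (((Ico x (x + H)).filter (fun n => n ∈ B)).card : ℝ)) :
    ∃ n r : ℕ, 0 < n ∧ 2 ≤ r ∧ ∀ j < k, n * r ^ j ∈ B := by
  obtain ⟨H0, h0⟩ := h (δ / 2) (by positivity)
  obtain ⟨H1, h1⟩ := exists_nat_gt (4 / δ)
  obtain ⟨x, H, hH, hc⟩ := hd (max H0 H1)
  have h2 := h0 x H ((le_max_left _ _).trans hH)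
  have hH1 : (4 / δ : ℝ) < H := h1.trans_le (by exact_mod_cast (le_max_right _ _).trans hH)
  rw [div_lt_iff₀ hδ] at hH1
  by_contra hcon
  have h3 : ((Ico x (x + H)).filter (fun n => n ∈ B)) ⊆
      insert 0 ((Ico x (x + H)).filter (fun n => n ∈ B ∧
        ¬ ∃ r : ℕ, 2 ≤ r ∧ ∀ j < k, n * r ^ j ∈ B)) := by
    intro n hn
    rw [Finset.mem_filter] at hn
    rw [Finset.mem_insert, Finset.mem_filter]
    by_cases hn0 : n = 0
    · exact Or.inl hn0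
    refine Or.inr ⟨hn.1, hn.2, ?_⟩
    rintro ⟨r, hr, h⟩
    exact hcon ⟨n, r, Nat.pos_of_ne_zero hn0, hr, h⟩
  have h4 := Finset.card_le_card h3
  have h5 := h4.trans (Finset.card_insert_le _ _)
  have h6 : (((Ico x (x + H)).filter (fun n => n ∈ B)).card : ℝ) ≤ δ / 2 * H + 1 := by
    have h7 : (((Ico x (x + H)).filter (fun n => n ∈ B)).card : ℝ) ≤
        ((((Ico x (x + H)).filter (fun n => n ∈ B ∧
        ¬ ∃ r : ℕ, 2 ≤ r ∧ ∀ j < k, n * r ^ j ∈ B)).card + 1 : ℕ) : ℝ) := by exact_mod_cast h5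
    push_cast at h7
    linarith
  nlinarith

end Pool.Agent.Work.MP_b928c0_nt_aut
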